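import Mathlib

/-!
# The number of labelled graded orders with four grade levels

We show `log₂ a₄(n) ≥ n²/4 + ((1 + log₂ 3)/2) n - O(log n)` for odd `n`. Since `(1 + log₂ 3)/2 > 5/4`
this refutes the conjectured asymptotic formula.
-/

set_option autoImplicit false

namespace Pool.Agent.Results.MP_ac85ec_co.FourLevels

open Finset Relation

section Defs

variable {V : Type} (r : V → V → Prop)

/-- The strict order. -/
def Lt (p q : V) : Prop := r p q ∧ p ≠ q

/-- `q` covers `p`. -/
def Covers (p q : V) : Prop := Lt r p q ∧ ¬ ∃ s, Lt r p s ∧ Lt r s q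

/-- The comparability graph. -/
def Comparability : SimpleGraph V where
  Adj p q := p ≠ q ∧ (r p q ∨ r q p)
  symm := ⟨fun _ _ h => ⟨h.1.symm, h.2.symm⟩⟩
  loopless := ⟨fun _ h => h.1 rfl⟩

/-- `g` is the normalised grading of the order `r`: it is order-preserving and positive, it increases
by one along covers, and every component contains an element with `g = 1`. -/
def IsGrading (g : V → ℕ) : Prop :=
  (∀ p q, r p q → g p ≤ g q) ∧ (∀ p q, Covers r p q → g q = g p + 1) ∧ (∀ p, 1 ≤ g p) ∧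
    ∀ p, ∃ b, (Comparability r).Reachable p b ∧ g b = 1

/-- `r` is a partial order which is graded with exactly `k` grade levels. -/
def GradedWith (k : ℕ) : Prop :=
  IsPartialOrder V r ∧ ∃ g : V → ℕ, IsGrading r g ∧ (Set.range g).ncard = k

end Defs

/-- The number of partial orders on an `n`-element set which are graded with exactly `k` levels. -/
noncomputable def a (k n : ℕ) : ℕ := Nat.card {r : Fin n → Fin n → Prop // GradedWith r k}

/-! ### The order generated by edges between consecutive levels -/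

section Generated

variable {V : Type} {E : V → V → Prop} {g : V → ℕ}

lemma rtg_le (hE : ∀ a b, E a b → g b = g a + 1) {a b : V} (h : ReflTransGen E a b) :
    g a ≤ g b := by
  induction h with
  | refl => exact le_rfl
  | tail _ h ih => have := hE _ _ h; omega

lemma rtg_lt (hE : ∀ a b, E a b → g b = g a + 1) {a b : V} (h : ReflTransGen E a b)
    (hab : a ≠ b) : g a < g b := by
  rcases h.cases_head with h | ⟨c, h1, h2⟩
  · exact absurd h hab
  · have := hE _ _ h1
    have := rtg_le hE h2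
    omega

lemma rtg_po (hE : ∀ a b, E a b → g b = g a + 1) : IsPartialOrder V (ReflTransGen E) where
  refl := fun _ => ReflTransGen.refl
  trans := fun _ _ _ => ReflTransGen.trans
  antisymm := fun a b h1 h2 => by
    by_contra hab
    have := rtg_lt hE h1 hab
    have := rtg_le hE h2
    omega

lemma covers_iff (hE : ∀ a b, E a b → g b = g a + 1) (a b : V) :
    Covers (ReflTransGen E) a b ↔ E a b := by
  constructor
  · rintro ⟨⟨h1, h2⟩, h3⟩
    rcases h1.cases_head with h | ⟨c, h4, h5⟩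
    · exact absurd h h2
    · by_cases hcb : c = b
      · rw [← hcb]
        exact h4
      · exfalso
        apply h3
        refine ⟨c, ⟨ReflTransGen.single h4, ?_⟩, ⟨h5, hcb⟩⟩
        rintro rfl
        have := hE _ _ h4
        omega
  · intro h
    have h1 := hE _ _ h
    refine ⟨⟨ReflTransGen.single h, ?_⟩, ?_⟩
    · rintro rfl
      omega
    · rintro ⟨s, ⟨h2, h3⟩, ⟨h4, h5⟩⟩
      have := rtg_lt hE h2 h3
      have := rtg_lt hE h4 h5
      omega

lemma isGrading (hE : ∀ a b, E a b → g b = g a + 1) (hpos : ∀ p, 1 ≤ g p) (v : V) (hv : g v = 1)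
    (hconn : ∀ p, ReflTransGen (fun a b => E a b ∨ E b a) v p) :
    IsGrading (ReflTransGen E) g := by
  refine ⟨fun p q h => rtg_le hE h, fun p q h => hE p q ((covers_iff hE p q).mp h), hpos,
    fun p => ⟨v, ?_, hv⟩⟩
  have h := hconn p
  induction h with
  | refl => exact SimpleGraph.Reachable.refl _
  | @tail b c _ h ih =>
    refine SimpleGraph.Reachable.trans ?_ ih
    apply SimpleGraph.Adj.reachable
    rcases h with h | h
    · refine ⟨?_, Or.inr (ReflTransGen.single h)⟩
      rintro rfl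
      have := hE _ _ h
      omega
    · refine ⟨?_, Or.inl (ReflTransGen.single h)⟩
      rintro rfl
      have := hE _ _ h
      omega

end Generated

/-! ### The family of orders -/

section Family

variable {N : ℕ}

/-- The level of an element: `none` is the only element of level one, the elements of `A` have level
three. -/
def lev (A : Finset (Fin N)) (f : Fin N → Fin 3 × Finset (Fin N)) : Option (Fin N) → ℕ
  | none => 1
  | some x => if x ∈ A then 3 else if (f x).1 = 2 then 4 else 2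

/-- The edges between consecutive levels. -/
def Edge (A : Finset (Fin N)) (f : Fin N → Fin 3 × Finset (Fin N)) :
    Option (Fin N) → Option (Fin N) → Prop
  | none, some x => x ∉ A ∧ (f x).1 = 0
  | some x, some y => (x ∉ A ∧ y ∈ A ∧ (f x).1 ≠ 2 ∧ y ∈ (f x).2) ∨
      (x ∈ A ∧ y ∉ A ∧ (f y).1 = 2 ∧ x ∈ (f y).2)
  | _, none => False

lemma edge_lev (A : Finset (Fin N)) (f : Fin N → Fin 3 × Finset (Fin N)) :
    ∀ p q, Edge A f p q → lev A f q = lev A f p + 1 := by
  rintro (_ | x) (_ | y) h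
  · exact h.elim
  · obtain ⟨h1, h2⟩ := h
    simp [lev, h1, h2]
  · exact h.elim
  · rcases h with ⟨h1, h2, h3, -⟩ | ⟨h1, h2, h3, -⟩
    · simp [lev, h1, h2, h3]
    · simp [lev, h1, h2, h3]

lemma lev_pos (A : Finset (Fin N)) (f : Fin N → Fin 3 × Finset (Fin N)) (p : Option (Fin N)) :
    1 ≤ lev A f p := by
  rcases p with _ | x
  · exact le_rfl
  · simp only [lev]
    split_ifs <;> omega

/-- The canonical data for a given set `A`. -/
def Data (A : Finset (Fin N)) : Finset (Fin N → Fin 3 × Finset (Fin N)) :=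
  Fintype.piFinset (fun x => if x ∈ A then {(0, ∅)} else univ ×ˢ A.powerset)

/-- The conditions which ensure that the order is connected and has four levels. -/
def Good (A : Finset (Fin N)) (f : Fin N → Fin 3 × Finset (Fin N)) : Prop :=
  (∀ y ∈ A, ∀ z ∈ A, ∃ x, x ∉ A ∧ y ∈ (f x).2 ∧ z ∈ (f x).2) ∧
  (∀ x, x ∉ A → (f x).2 ≠ ∅) ∧ (∃ x, x ∉ A ∧ (f x).1 = 0) ∧ (∃ x, x ∉ A ∧ (f x).1 = 2)

lemma mem_Data {A : Finset (Fin N)} {f : Fin N → Fin 3 × Finset (Fin N)} (h : f ∈ Data A) :
    (∀ x ∈ A, f x = (0, ∅)) ∧ (∀ x, x ∉ A → (f x).2 ⊆ A) := by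
  rw [Data, Fintype.mem_piFinset] at h
  constructor
  · intro x hx
    have := h x
    rw [if_pos hx, mem_singleton] at this
    exact this
  · intro x hx
    have := h x
    rw [if_neg hx, mem_product, mem_powerset] at this
    exact this.2

/-- adjacency along edges -/
lemma adj_of_mem {A : Finset (Fin N)} {f : Fin N → Fin 3 × Finset (Fin N)} {x y : Fin N}
    (hx : x ∉ A) (hy : y ∈ A) (h : y ∈ (f x).2) :
    Edge A f (some x) (some y) ∨ Edge A f (some y) (some x) := by
  by_cases h2 : (f x).1 = 2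
  · exact Or.inr (Or.inr ⟨hy, hx, h2, h⟩)
  · exact Or.inl (Or.inl ⟨hx, hy, h2, h⟩)

lemma connected {A : Finset (Fin N)} {f : Fin N → Fin 3 × Finset (Fin N)} (hf : f ∈ Data A)
    (hg : Good A f) : ∀ p, ReflTransGen (fun a b => Edge A f a b ∨ Edge A f b a) none p := by
  obtain ⟨hd1, hd2⟩ := mem_Data hf
  obtain ⟨h1, h2, ⟨x0, hx0, hx0'⟩, -⟩ := hg
  have hA : ∃ y0, y0 ∈ A ∧ y0 ∈ (f x0).2 := by
    obtain ⟨y, hy⟩ := Finset.nonempty_iff_ne_empty.mpr (h2 x0 hx0)
    exact ⟨y, hd2 x0 hx0 hy, hy⟩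
  obtain ⟨y0, hy0, hy0'⟩ := hA
  have hx0r : ReflTransGen (fun a b => Edge A f a b ∨ Edge A f b a) none (some x0) :=
    ReflTransGen.single (Or.inl ⟨hx0, hx0'⟩)
  have hy0r : ReflTransGen (fun a b => Edge A f a b ∨ Edge A f b a) none (some y0) :=
    hx0r.tail (adj_of_mem hx0 hy0 hy0')
  have hA' : ∀ z ∈ A, ReflTransGen (fun a b => Edge A f a b ∨ Edge A f b a) none (some z) := by
    intro z hz
    obtain ⟨x, hx, hxy, hxz⟩ := h1 y0 hy0 z hz
    exact (hy0r.tail (adj_of_mem hx hy0 hxy).symm).tail (adj_of_mem hx hz hxz)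
  rintro (_ | x)
  · exact ReflTransGen.refl
  · by_cases hx : x ∈ A
    · exact hA' x hx
    · obtain ⟨y, hy⟩ := Finset.nonempty_iff_ne_empty.mpr (h2 x hx)
      exact (hA' y (hd2 x hx hy)).tail (adj_of_mem hx (hd2 x hx hy) hy).symm

lemma range_lev {A : Finset (Fin N)} {f : Fin N → Fin 3 × Finset (Fin N)} (hf : f ∈ Data A)
    (hg : Good A f) : Set.range (lev A f) = {1, 2, 3, 4} := by
  obtain ⟨hd1, hd2⟩ := mem_Data hf
  obtain ⟨h1, h2, ⟨x0, hx0, hx0'⟩, ⟨x2, hx2, hx2'⟩⟩ := hg
  obtain ⟨y, hy⟩ := Finset.nonempty_iff_ne_empty.mpr (h2 x0 hx0)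
  ext i
  constructor
  · rintro ⟨p, rfl⟩
    rcases p with _ | x
    · simp [lev]
    · simp only [lev]
      split_ifs <;> simp
  · intro hi
    simp only [Set.mem_insert_iff, Set.mem_singleton_iff] at hi
    rcases hi with rfl | rfl | rfl | rfl
    · exact ⟨none, rfl⟩
    · exact ⟨some x0, by simp [lev, hx0, hx0']⟩
    · exact ⟨some y, by simp [lev, hd2 x0 hx0 hy]⟩
    · exact ⟨some x2, by simp [lev, hx2, hx2']⟩

/-- The levels are determined by the edges. -/
lemma lev_eq {A A' : Finset (Fin N)} {f f' : Fin N → Fin 3 × Finset (Fin N)} (hf : f ∈ Data A)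
    (hg : Good A f) (hE : Edge A f = Edge A' f') : ∀ p, lev A f p = lev A' f' p := by
  intro p
  have h := connected hf hg p
  induction h with
  | refl => rfl
  | @tail b c _ h ih =>
    rcases h with h | h
    · have h1 := edge_lev A f _ _ h
      rw [hE] at h
      have h2 := edge_lev A' f' _ _ h
      omega
    · have h1 := edge_lev A f _ _ h
      rw [hE] at h
      have h2 := edge_lev A' f' _ _ h
      omega

lemma data_eq {A A' : Finset (Fin N)} {f f' : Fin N → Fin 3 × Finset (Fin N)} (hf : f ∈ Data A)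
    (hg : Good A f) (hf' : f' ∈ Data A') (hE : Edge A f = Edge A' f') : A = A' ∧ f = f' := by
  have hlev := lev_eq hf hg hE
  obtain ⟨hd1, hd2⟩ := mem_Data hf
  obtain ⟨hd1', hd2'⟩ := mem_Data hf'
  have hmem : ∀ (B : Finset (Fin N)) (h : Fin N → Fin 3 × Finset (Fin N)) (x : Fin N),
      x ∈ B ↔ lev B h (some x) = 3 := by
    intro B h x
    simp only [lev]
    split_ifs with h1 h2 <;> simp [h1]
  have hA : A = A' := by
    ext x
    rw [hmem A f, hmem A' f', hlev]
  subst hA
  refine ⟨rfl, ?_⟩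
  have htwo : ∀ (h : Fin N → Fin 3 × Finset (Fin N)) (x : Fin N), x ∉ A →
      ((h x).1 = 2 ↔ lev A h (some x) = 4) := by
    intro h x hx
    simp only [lev, if_neg hx]
    split_ifs with h2 <;> simp [h2]
  funext x
  by_cases hx : x ∈ A
  · rw [hd1 x hx, hd1' x hx]
  · have h2 : (f x).1 = 2 ↔ (f' x).1 = 2 := by rw [htwo f x hx, htwo f' x hx, hlev]
    have h0 : (f x).1 = 0 ↔ (f' x).1 = 0 := by
      have h3 : Edge A f none (some x) ↔ Edge A f' none (some x) := by rw [hE]
      simpa only [Edge, hx, not_false_eq_true, true_and] using h3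
    have h1 : (f x).1 = (f' x).1 := by
      generalize (f x).1 = i at h0 h2
      generalize (f' x).1 = j at h0 h2
      fin_cases i <;> fin_cases j <;> simp_all
    refine Prod.ext h1 ?_
    ext y
    by_cases hy : y ∈ A
    · by_cases h4 : (f x).1 = 2
      · have h3 : Edge A f (some y) (some x) ↔ Edge A f' (some y) (some x) := by rw [hE]
        simpa only [Edge, hx, hy, not_false_eq_true, true_and, not_true_eq_false, false_and,
          false_or, h4, h2.mp h4] using h3
      · have h3 : Edge A f (some x) (some y) ↔ Edge A f' (some x) (some y) := by rw [hE]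
        have h5 : ¬ (f' x).1 = 2 := fun h => h4 (h2.mpr h)
        simpa only [Edge, hx, hy, not_false_eq_true, true_and, not_true_eq_false, false_and,
          or_false, h4, h5, ne_eq] using h3
    · constructor
      · intro h
        exact absurd (hd2 x hx h) hy
      · intro h
        exact absurd (hd2' x hx h) hy

/-- The order on `Fin (N + 1)` given by the data. -/
def ord (c : (_ : Finset (Fin N)) × (Fin N → Fin 3 × Finset (Fin N))) :
    Fin (N + 1) → Fin (N + 1) → Prop :=
  ReflTransGen (fun p q => Edge c.1 c.2 (finSuccEquiv N p) (finSuccEquiv N q))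

lemma edge_lev' (A : Finset (Fin N)) (f : Fin N → Fin 3 × Finset (Fin N)) :
    ∀ p q, Edge A f (finSuccEquiv N p) (finSuccEquiv N q) →
      lev A f (finSuccEquiv N q) = lev A f (finSuccEquiv N p) + 1 :=
  fun _ _ h => edge_lev A f _ _ h

lemma ord_graded (c : (_ : Finset (Fin N)) × (Fin N → Fin 3 × Finset (Fin N)))
    (hf : c.2 ∈ Data c.1) (hg : Good c.1 c.2) : GradedWith (ord c) 4 := by
  refine ⟨rtg_po (g := fun p => lev c.1 c.2 (finSuccEquiv N p)) (edge_lev' c.1 c.2),
    fun p => lev c.1 c.2 (finSuccEquiv N p), ?_, ?_⟩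
  · apply isGrading (edge_lev' c.1 c.2) (fun p => lev_pos _ _ _) ((finSuccEquiv N).symm none)
    · rw [Equiv.apply_symm_apply]
      rfl
    · intro p
      have h := connected hf hg (finSuccEquiv N p)
      have h2 : ReflTransGen (fun a b =>
          Edge c.1 c.2 (finSuccEquiv N a) (finSuccEquiv N b) ∨
          Edge c.1 c.2 (finSuccEquiv N b) (finSuccEquiv N a)) ((finSuccEquiv N).symm none)
          ((finSuccEquiv N).symm (finSuccEquiv N p)) := by
        refine h.lift (finSuccEquiv N).symm ?_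
        intro a b hab
        simpa only [Function.onFun, Equiv.apply_symm_apply] using hab
      rwa [Equiv.symm_apply_apply] at h2
  · have h1 : Set.range (fun p => lev c.1 c.2 (finSuccEquiv N p)) = Set.range (lev c.1 c.2) := by
      exact (finSuccEquiv N).surjective.range_comp (lev c.1 c.2)
    rw [h1, range_lev hf hg]
    rw [Set.ncard_eq_toFinset_card']
    rfl

lemma ord_inj (c c' : (_ : Finset (Fin N)) × (Fin N → Fin 3 × Finset (Fin N)))
    (hf : c.2 ∈ Data c.1) (hg : Good c.1 c.2) (hf' : c'.2 ∈ Data c'.1) (h : ord c = ord c') :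
    c = c' := by
  have hE : Edge c.1 c.2 = Edge c'.1 c'.2 := by
    funext p q
    rw [eq_iff_iff]
    have h1 := covers_iff (g := fun p => lev c.1 c.2 (finSuccEquiv N p)) (edge_lev' c.1 c.2)
      ((finSuccEquiv N).symm p) ((finSuccEquiv N).symm q)
    have h2 := covers_iff (g := fun p => lev c'.1 c'.2 (finSuccEquiv N p)) (edge_lev' c'.1 c'.2)
      ((finSuccEquiv N).symm p) ((finSuccEquiv N).symm q)
    simp only [Equiv.apply_symm_apply] at h1 h2
    rw [← h1, ← h2]
    show Covers (ord c) _ _ ↔ Covers (ord c') _ _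
    rw [h]
  obtain ⟨h1, h2⟩ := data_eq hf hg hf' hE
  obtain ⟨A, f⟩ := c
  obtain ⟨A', f'⟩ := c'
  simp only at h1 h2
  subst h1
  subst h2
  rfl

/-! ### Counting -/

lemma card_pi (A : Finset (Fin N)) (Y : Fin N → Finset (Fin 3 × Finset (Fin N))) :
    (Fintype.piFinset (fun x => if x ∈ A then {(0, ∅)} else Y x)).card =
      ∏ x ∈ Aᶜ, (Y x).card := by
  rw [Fintype.card_piFinset]
  have h1 : ∀ x, (if x ∈ A then ({(0, ∅)} : Finset (Fin 3 × Finset (Fin N))) else Y x).card =
      if x ∈ A then 1 else (Y x).card := by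
    intro x
    split_ifs <;> simp
  simp only [h1]
  rw [prod_ite, prod_const_one, one_mul]
  apply prod_congr _ (fun _ _ => rfl)
  ext x
  simp

lemma card_Data (A : Finset (Fin N)) : (Data A).card = (3 * 2 ^ A.card) ^ Aᶜ.card := by
  rw [Data, card_pi, prod_const, card_product, card_powerset]
  simp

lemma four_mul_card (A : Finset (Fin N)) (y z : Fin N) (hy : y ∈ A) (hz : z ∈ A) :
    2 ^ A.card ≤ 4 * (A.powerset.filter (fun S => y ∈ S ∧ z ∈ S)).card := by
  have h1 : ((A \ {y, z}).powerset.image (fun S => S ∪ {y, z})) ⊆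
      A.powerset.filter (fun S => y ∈ S ∧ z ∈ S) := by
    intro S hS
    obtain ⟨S', hS', rfl⟩ := mem_image.mp hS
    rw [mem_powerset] at hS'
    rw [mem_filter, mem_powerset]
    refine ⟨union_subset (hS'.trans sdiff_subset) ?_, by simp, by simp⟩
    intro w hw
    rw [mem_insert, mem_singleton] at hw
    rcases hw with rfl | rfl
    · exact hy
    · exact hz
  have h2 : ((A \ {y, z}).powerset.image (fun S => S ∪ {y, z})).card = 2 ^ (A \ {y, z}).card := by
    rw [card_image_of_injOn, card_powerset]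
    intro S hS S' hS' h
    simp only [coe_powerset, Set.mem_preimage, Set.mem_powerset_iff, coe_subset] at hS hS'
    have h3 : ∀ R : Finset (Fin N), R ⊆ A \ {y, z} → (R ∪ {y, z}) \ {y, z} = R := by
      intro R hR
      ext w
      simp only [mem_sdiff, mem_union]
      constructor
      · rintro ⟨h4 | h4, h5⟩
        · exact h4
        · exact absurd h4 h5
      · intro h4
        exact ⟨Or.inl h4, (mem_sdiff.mp (hR h4)).2⟩
    rw [← h3 S hS, ← h3 S' hS']
    simp only at h
    rw [h]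
  have h3 : A.card ≤ (A \ {y, z}).card + 2 := by
    have h4 := card_le_card_sdiff_add_card (s := A) (t := {y, z})
    have h5 : ({y, z} : Finset (Fin N)).card ≤ 2 := card_le_two
    omega
  calc 2 ^ A.card ≤ 2 ^ ((A \ {y, z}).card + 2) := Nat.pow_le_pow_right (by norm_num) h3
    _ = 4 * 2 ^ (A \ {y, z}).card := by ring
    _ ≤ 4 * (A.powerset.filter (fun S => y ∈ S ∧ z ∈ S)).card := by
      rw [← h2]
      exact Nat.mul_le_mul_left 4 (card_le_card h1)

/-- The data for which `y, z` have no common neighbour. -/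
def B1 (A : Finset (Fin N)) (y z : Fin N) : Finset (Fin N → Fin 3 × Finset (Fin N)) :=
  Fintype.piFinset (fun x => if x ∈ A then {(0, ∅)} else
    univ ×ˢ (A.powerset.filter (fun S => ¬ (y ∈ S ∧ z ∈ S))))

/-- The data for which `x` has no neighbour in `A`. -/
def B2 (A : Finset (Fin N)) (x' : Fin N) : Finset (Fin N → Fin 3 × Finset (Fin N)) :=
  Fintype.piFinset (fun x => if x ∈ A then {(0, ∅)} else
    if x = x' then univ ×ˢ {∅} else univ ×ˢ A.powerset)

/-- The data without elements of type `i`. -/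
def B3 (A : Finset (Fin N)) (i : Fin 3) : Finset (Fin N → Fin 3 × Finset (Fin N)) :=
  Fintype.piFinset (fun x => if x ∈ A then {(0, ∅)} else (univ.erase i) ×ˢ A.powerset)

lemma card_B1 (A : Finset (Fin N)) (y z : Fin N) (hy : y ∈ A) (hz : z ∈ A) :
    ((B1 A y z).card : ℝ) ≤ (3 * 2 ^ A.card) ^ Aᶜ.card * (3 / 4) ^ Aᶜ.card := by
  rw [B1, card_pi, prod_const, card_product, ← mul_pow]
  push_cast
  apply pow_le_pow_left₀ (by positivity)
  have h1 := four_mul_card A y z hy hz
  have h2 : (A.powerset.filter (fun S => y ∈ S ∧ z ∈ S)).card +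
      (A.powerset.filter (fun S => ¬ (y ∈ S ∧ z ∈ S))).card = 2 ^ A.card := by
    rw [card_filter_add_card_filter_not, card_powerset]
  have h3 : ((A.powerset.filter (fun S => y ∈ S ∧ z ∈ S)).card : ℝ) +
      (A.powerset.filter (fun S => ¬ (y ∈ S ∧ z ∈ S))).card = 2 ^ A.card := by
    exact_mod_cast h2
  have h4 : (2 : ℝ) ^ A.card ≤ 4 * (A.powerset.filter (fun S => y ∈ S ∧ z ∈ S)).card := by
    exact_mod_cast h1
  simp only [card_univ, Fintype.card_fin, Nat.cast_ofNat]
  linarith

lemma card_B2 (A : Finset (Fin N)) (x' : Fin N) (hx' : x' ∉ A) :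
    ((B2 A x').card : ℝ) = (3 * 2 ^ A.card) ^ Aᶜ.card * (1 / 2) ^ A.card := by
  have hmem : x' ∈ Aᶜ := mem_compl.mpr hx'
  rw [B2, card_pi, ← mul_prod_erase _ _ hmem]
  have h1 : ∏ x ∈ Aᶜ.erase x', (if x = x' then (univ : Finset (Fin 3)) ×ˢ {(∅ : Finset (Fin N))}
      else univ ×ˢ A.powerset).card = (3 * 2 ^ A.card) ^ (Aᶜ.card - 1) := by
    rw [← card_erase_of_mem hmem, ← prod_const]
    apply prod_congr rfl
    intro x hx
    rw [if_neg (ne_of_mem_erase hx), card_product, card_powerset]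
    simp
  rw [h1]
  simp only [if_true, card_product, card_univ, Fintype.card_fin, card_singleton, mul_one]
  have hpos : 1 ≤ Aᶜ.card := card_pos.mpr ⟨x', hmem⟩
  obtain ⟨c, hc⟩ : ∃ c, Aᶜ.card = c + 1 := ⟨Aᶜ.card - 1, by omega⟩
  rw [hc, Nat.add_sub_cancel]
  push_cast
  rw [pow_succ (3 * (2 : ℝ) ^ A.card) c]
  have h2 : (2 : ℝ) ^ A.card * (1 / 2) ^ A.card = 1 := by
    rw [← mul_pow]
    norm_num
  calc (3 : ℝ) * (3 * 2 ^ A.card) ^ c = (3 * 2 ^ A.card) ^ c * 3 * 1 := by ring
    _ = (3 * 2 ^ A.card) ^ c * 3 * (2 ^ A.card * (1 / 2) ^ A.card) := by rw [h2]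
    _ = _ := by ring

lemma card_B3 (A : Finset (Fin N)) (i : Fin 3) :
    ((B3 A i).card : ℝ) = (3 * 2 ^ A.card) ^ Aᶜ.card * (2 / 3) ^ Aᶜ.card := by
  rw [B3, card_pi, prod_const, card_product, card_powerset, card_erase_of_mem (mem_univ _),
    ← mul_pow]
  simp only [card_univ, Fintype.card_fin]
  push_cast
  congr 1
  norm_num
  ring

open Classical in
lemma bad_subset (A : Finset (Fin N)) :
    (Data A).filter (fun f => ¬ Good A f) ⊆
      ((A ×ˢ A).biUnion (fun q => B1 A q.1 q.2) ∪ Aᶜ.biUnion (fun x => B2 A x)) ∪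
        (B3 A 0 ∪ B3 A 2) := by
  intro f hf
  rw [mem_filter, Data, Fintype.mem_piFinset] at hf
  obtain ⟨hf, hbad⟩ := hf
  have hfA : ∀ x ∈ A, f x ∈ ({(0, ∅)} : Finset (Fin 3 × Finset (Fin N))) := by
    intro x hx
    have := hf x
    rwa [if_pos hx] at this
  have hfA' : ∀ x, x ∉ A → (f x).2 ∈ A.powerset := by
    intro x hx
    have := hf x
    rw [if_neg hx, mem_product] at this
    exact this.2
  unfold Good at hbad
  rw [not_and_or, not_and_or, not_and_or] at hbad
  rw [mem_union, mem_union, mem_union]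
  rcases hbad with h | h | h | h
  · push Not at h
    obtain ⟨y, hy, z, hz, h⟩ := h
    left; left
    rw [mem_biUnion]
    refine ⟨(y, z), mem_product.mpr ⟨hy, hz⟩, ?_⟩
    rw [B1, Fintype.mem_piFinset]
    intro x
    by_cases hx : x ∈ A
    · rw [if_pos hx]
      exact hfA x hx
    · rw [if_neg hx, mem_product, mem_filter]
      refine ⟨mem_univ _, hfA' x hx, ?_⟩
      rintro ⟨h1, h2⟩
      exact h x hx h1 h2
  · push Not at h
    obtain ⟨x', hx', h⟩ := h
    left; right
    rw [mem_biUnion]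
    refine ⟨x', mem_compl.mpr hx', ?_⟩
    rw [B2, Fintype.mem_piFinset]
    intro x
    by_cases hx : x ∈ A
    · rw [if_pos hx]
      exact hfA x hx
    · rw [if_neg hx]
      split_ifs with hxx
      · rw [mem_product, mem_singleton, hxx]
        exact ⟨mem_univ _, h⟩
      · rw [mem_product]
        exact ⟨mem_univ _, hfA' x hx⟩
  · push Not at h
    right; left
    rw [B3, Fintype.mem_piFinset]
    intro x
    by_cases hx : x ∈ A
    · rw [if_pos hx]
      exact hfA x hx
    · rw [if_neg hx, mem_product, mem_erase]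
      exact ⟨⟨h x hx, mem_univ _⟩, hfA' x hx⟩
  · push Not at h
    right; right
    rw [B3, Fintype.mem_piFinset]
    intro x
    by_cases hx : x ∈ A
    · rw [if_pos hx]
      exact hfA x hx
    · rw [if_neg hx, mem_product, mem_erase]
      exact ⟨⟨h x hx, mem_univ _⟩, hfA' x hx⟩

open Classical in
lemma card_good (A : Finset (Fin N)) :
    ((3 : ℝ) * 2 ^ A.card) ^ Aᶜ.card * (1 - (A.card ^ 2 * (3 / 4) ^ Aᶜ.card +
      Aᶜ.card * (1 / 2) ^ A.card + 2 * (2 / 3) ^ Aᶜ.card)) ≤
      ((Data A).filter (fun f => Good A f)).card := by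
  have h1 : ((Data A).filter (fun f => Good A f)).card +
      ((Data A).filter (fun f => ¬ Good A f)).card = (Data A).card :=
    card_filter_add_card_filter_not _
  have h2 : (((Data A).filter (fun f => ¬ Good A f)).card : ℝ) ≤
      (∑ q ∈ A ×ˢ A, ((B1 A q.1 q.2).card : ℝ) + ∑ x ∈ Aᶜ, ((B2 A x).card : ℝ)) +
        ((B3 A 0).card + (B3 A 2).card) := by
    have h3 : ((Data A).filter (fun f => ¬ Good A f)).card ≤
        (∑ q ∈ A ×ˢ A, (B1 A q.1 q.2).card + ∑ x ∈ Aᶜ, (B2 A x).card) +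
        ((B3 A 0).card + (B3 A 2).card) := by
      refine (card_le_card (bad_subset A)).trans ?_
      refine (card_union_le _ _).trans (add_le_add ?_ (card_union_le _ _))
      refine (card_union_le _ _).trans (add_le_add card_biUnion_le card_biUnion_le)
    exact_mod_cast h3
  have h3 : ∑ q ∈ A ×ˢ A, ((B1 A q.1 q.2).card : ℝ) ≤
      A.card ^ 2 * ((3 * 2 ^ A.card) ^ Aᶜ.card * (3 / 4) ^ Aᶜ.card) := by
    calc ∑ q ∈ A ×ˢ A, ((B1 A q.1 q.2).card : ℝ)
        ≤ ∑ _q ∈ A ×ˢ A, ((3 * 2 ^ A.card) ^ Aᶜ.card * (3 / 4 : ℝ) ^ Aᶜ.card) := by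
          apply sum_le_sum
          intro q hq
          rw [mem_product] at hq
          exact card_B1 A q.1 q.2 hq.1 hq.2
      _ = _ := by
          rw [sum_const, card_product, nsmul_eq_mul]
          push_cast
          ring
  have h4 : ∑ x ∈ Aᶜ, ((B2 A x).card : ℝ) =
      Aᶜ.card * ((3 * 2 ^ A.card) ^ Aᶜ.card * (1 / 2) ^ A.card) := by
    rw [sum_congr rfl (fun x hx => card_B2 A x (mem_compl.mp hx)), sum_const, nsmul_eq_mul]
  have h5 : (((Data A).filter (fun f => Good A f)).card : ℝ) +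
      ((Data A).filter (fun f => ¬ Good A f)).card = (3 * 2 ^ A.card) ^ Aᶜ.card := by
    have := card_Data A
    rw [← h1] at this
    exact_mod_cast this
  rw [card_B3, card_B3] at h2
  nlinarith [h2, h3, h4, h5]

end Family

/-- The number of graded orders with four levels on `2 m + 1` elements. -/
lemma count (m : ℕ) (hε : (m : ℝ) ^ 2 * (3 / 4) ^ m + m * (1 / 2) ^ m + 2 * (2 / 3) ^ m ≤ 1 / 2) :
    (m.centralBinom : ℝ) * ((3 * 2 ^ m) ^ m / 2) ≤ a 4 (2 * m + 1) := by
  classical
  set N := 2 * m with hN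
  let S : Finset ((_ : Finset (Fin N)) × (Fin N → Fin 3 × Finset (Fin N))) :=
    (powersetCard m (univ : Finset (Fin N))).sigma
      (fun A => (Data A).filter (fun f => Good A f))
  have hS : ∀ c ∈ S, c.2 ∈ Data c.1 ∧ Good c.1 c.2 := by
    intro c hc
    rw [mem_sigma, mem_filter] at hc
    exact hc.2
  have h1 : S.card ≤ a 4 (N + 1) := by
    have hfin : Finite {r : Fin (N + 1) → Fin (N + 1) → Prop // GradedWith r 4} := inferInstance
    let F : S → {r : Fin (N + 1) → Fin (N + 1) → Prop // GradedWith r 4} := fun c =>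
      ⟨ord c.1, ord_graded c.1 (hS c.1 c.2).1 (hS c.1 c.2).2⟩
    have hF : Function.Injective F := by
      intro c c' h
      apply Subtype.ext
      exact ord_inj c.1 c'.1 (hS c.1 c.2).1 (hS c.1 c.2).2 (hS c'.1 c'.2).1
        (congrArg Subtype.val h)
    have h2 := Nat.card_le_card_of_injective F hF
    rwa [Nat.card_eq_fintype_card, Fintype.card_coe] at h2
  have h2 : (m.centralBinom : ℝ) * ((3 * 2 ^ m) ^ m / 2) ≤ S.card := by
    have h3 : (S.card : ℝ) = ∑ A ∈ powersetCard m (univ : Finset (Fin N)),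
        (((Data A).filter (fun f => Good A f)).card : ℝ) := by
      rw [card_sigma]
      push_cast
      rfl
    rw [h3]
    have h4 : ∀ A ∈ powersetCard m (univ : Finset (Fin N)), ((3 : ℝ) * 2 ^ m) ^ m / 2 ≤
        ((Data A).filter (fun f => Good A f)).card := by
      intro A hA
      rw [mem_powersetCard] at hA
      have hA2 : Aᶜ.card = m := by
        rw [card_compl, hA.2, Fintype.card_fin]
        omega
      have h5 := card_good A
      rw [hA2, hA.2] at h5
      refine le_trans ?_ h5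
      have h6 : (0 : ℝ) ≤ (3 * 2 ^ m) ^ m := by positivity
      nlinarith
    calc (m.centralBinom : ℝ) * ((3 * 2 ^ m) ^ m / 2)
        = ∑ _A ∈ powersetCard m (univ : Finset (Fin N)), ((3 : ℝ) * 2 ^ m) ^ m / 2 := by
          rw [sum_const, card_powersetCard, card_univ, Fintype.card_fin, nsmul_eq_mul,
            Nat.centralBinom_eq_two_mul_choose]
      _ ≤ _ := sum_le_sum h4
  refine h2.trans ?_
  exact_mod_cast h1

/-! ### Asymptotics -/

lemma eventually_small : ∀ᶠ m : ℕ in Filter.atTop,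
    (m : ℝ) ^ 2 * (3 / 4) ^ m + m * (1 / 2) ^ m + 2 * (2 / 3) ^ m ≤ 1 / 2 := by
  have h1 : Filter.Tendsto (fun m : ℕ => (m : ℝ) ^ 2 * (3 / 4) ^ m) Filter.atTop (nhds 0) :=
    tendsto_pow_const_mul_const_pow_of_abs_lt_one 2 (by norm_num [abs_of_pos])
  have h2 : Filter.Tendsto (fun m : ℕ => (m : ℝ) ^ 1 * (1 / 2) ^ m) Filter.atTop (nhds 0) :=
    tendsto_pow_const_mul_const_pow_of_abs_lt_one 1 (by norm_num [abs_of_pos])
  have h3 : Filter.Tendsto (fun m : ℕ => (2 / 3 : ℝ) ^ m) Filter.atTop (nhds 0) :=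
    tendsto_pow_atTop_nhds_zero_of_lt_one (by norm_num) (by norm_num)
  have h4 := (h1.add h2).add (h3.const_mul 2)
  have h5 := h4.eventually_le_const (u := 1 / 2) (by norm_num)
  filter_upwards [h5] with m hm
  simpa only [pow_one] using hm

/-- The lower bound in logarithmic form. -/
lemma log_lower : ∀ᶠ m : ℕ in Filter.atTop,
    (m : ℝ) ^ 2 + (2 + Real.logb 2 3) * m - Real.logb 2 (2 * m) - 1 ≤
      Real.logb 2 (a 4 (2 * m + 1)) := by
  filter_upwards [eventually_small, Filter.eventually_ge_atTop 1] with m hm hm1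
  have h1 := count m hm
  have hm0 : (0 : ℝ) < m := by exact_mod_cast hm1
  have h2 : (4 : ℝ) ^ m ≤ 2 * m * m.centralBinom := by
    have := Nat.four_pow_le_two_mul_self_mul_centralBinom m hm1
    exact_mod_cast this
  have h3 : (4 : ℝ) ^ m / (2 * m) * ((3 * 2 ^ m) ^ m / 2) ≤ a 4 (2 * m + 1) := by
    refine le_trans ?_ h1
    apply mul_le_mul_of_nonneg_right _ (by positivity)
    rw [div_le_iff₀ (by positivity)]
    linarith
  have h4 := Real.logb_le_logb_of_le (b := 2) (by norm_num) (by positivity) h3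
  refine le_trans (le_of_eq ?_) h4
  have h22 : Real.logb 2 2 = 1 := Real.logb_self_eq_one (by norm_num)
  have h5 : Real.logb 2 4 = 2 := by
    rw [show (4 : ℝ) = 2 ^ 2 by norm_num, Real.logb_pow, h22]
    norm_num
  have h6 : Real.logb 2 ((4 : ℝ) ^ m / (2 * m) * ((3 * 2 ^ m) ^ m / 2)) =
      (m * 2 - Real.logb 2 (2 * m)) + (m * (Real.logb 2 3 + m * 1) - 1) := by
    have e1 : Real.logb 2 ((4 : ℝ) ^ m / (2 * m) * ((3 * 2 ^ m) ^ m / 2)) =
        Real.logb 2 ((4 : ℝ) ^ m / (2 * m)) + Real.logb 2 ((3 * 2 ^ m) ^ m / 2) :=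
      Real.logb_mul (by positivity) (by positivity)
    have e2 : Real.logb 2 ((4 : ℝ) ^ m / (2 * m)) = Real.logb 2 ((4 : ℝ) ^ m) -
        Real.logb 2 (2 * m) := Real.logb_div (by positivity) (by positivity)
    have e3 : Real.logb 2 (((3 : ℝ) * 2 ^ m) ^ m / 2) = Real.logb 2 (((3 : ℝ) * 2 ^ m) ^ m) -
        Real.logb 2 2 := Real.logb_div (by positivity) (by norm_num)
    have e4 : Real.logb 2 ((3 : ℝ) * 2 ^ m) = Real.logb 2 3 + Real.logb 2 ((2 : ℝ) ^ m) :=
      Real.logb_mul (by norm_num) (by positivity)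
    rw [e1, e2, e3, Real.logb_pow, Real.logb_pow, e4, Real.logb_pow, h22, h5]
  rw [h6]
  ring

lemma logb_three : 3 / 2 < Real.logb 2 3 := by
  rw [Real.lt_logb_iff_rpow_lt (by norm_num) (by norm_num)]
  have h1 : ((2 : ℝ) ^ (3 / 2 : ℝ)) ^ 2 = 8 := by
    rw [← Real.rpow_natCast, ← Real.rpow_mul (by norm_num)]
    norm_num
  nlinarith [Real.rpow_pos_of_pos (show (0 : ℝ) < 2 by norm_num) (3 / 2)]

/-- The number `a 4 n` of labelled graded orders with exactly four grade levels satisfies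
`log₂ a₄(n) ≥ n²/4 + ((1 + log₂ 3)/2) n - log₂ n - 3` for all large odd `n`; consequently it is not
`n²/4 + (5/4) n + O(log n)`. -/
theorem result :
    (∃ n0 : ℕ, ∀ n ≥ n0, Odd n →
      (n : ℝ) ^ 2 / 4 + (1 + Real.logb 2 3) / 2 * n - Real.logb 2 n - 3 ≤
        Real.logb 2 (a 4 n)) ∧
    (∀ C : ℝ, ∀ n0 : ℕ, ∃ n ≥ n0,
      C * Real.log n < |Real.logb 2 (a 4 n) - (n : ℝ) ^ 2 / 4 - 5 / 4 * n|) := by
  have h3 := logb_three
  have h4 : Real.logb 2 3 < 2 := by
    rw [Real.logb_lt_iff_lt_rpow (by norm_num) (by norm_num)]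
    norm_num
  have key : ∃ n0 : ℕ, ∀ n ≥ n0, Odd n →
      (n : ℝ) ^ 2 / 4 + (1 + Real.logb 2 3) / 2 * n - Real.logb 2 n - 3 ≤
        Real.logb 2 (a 4 n) := by
    obtain ⟨m0, hm0⟩ := Filter.eventually_atTop.mp log_lower
    refine ⟨2 * m0 + 3, ?_⟩
    rintro n hn ⟨m, rfl⟩
    have h1 := hm0 m (by omega)
    refine le_trans ?_ h1
    have hm1 : (1 : ℝ) ≤ m := by
      have : 1 ≤ m := by omega
      exact_mod_cast this
    have h2 : Real.logb 2 (2 * m) ≤ Real.logb 2 ((2 * m + 1 : ℕ) : ℝ) := by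
      apply Real.logb_le_logb_of_le (by norm_num) (by positivity)
      push_cast
      linarith
    push_cast at h2 ⊢
    nlinarith
  refine ⟨key, fun C n0 => ?_⟩
  obtain ⟨n1, hn1⟩ := key
  set δ : ℝ := (1 + Real.logb 2 3) / 2 - 5 / 4 with hδ
  have hδ0 : 0 < δ := by rw [hδ]; linarith
  -- `(|C| + 2) log n + 3 < δ n` for large `n`
  have hlog : ∀ᶠ n : ℕ in Filter.atTop, Real.log n ≤ (δ / (2 * (|C| + 2))) * n := by
    have h5 := Real.isLittleO_log_id_atTop.def (c := δ / (2 * (|C| + 2))) (by positivity)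
    have h6 := tendsto_natCast_atTop_atTop (R := ℝ) |>.eventually h5
    filter_upwards [h6, Filter.eventually_ge_atTop 1] with n hn hn1
    have hn1' : (1 : ℝ) ≤ n := by exact_mod_cast hn1
    rw [Real.norm_of_nonneg (Real.log_nonneg hn1'), id, Real.norm_of_nonneg (by positivity)] at hn
    exact hn
  have hbig : ∀ᶠ n : ℕ in Filter.atTop, 3 < δ / 2 * (n : ℝ) := by
    have h5 := tendsto_natCast_atTop_atTop (R := ℝ) |>.eventually_gt_atTop (3 / (δ / 2))
    filter_upwards [h5] with n hn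
    rw [div_lt_iff₀ (by positivity)] at hn
    linarith
  obtain ⟨n2, hn2⟩ := Filter.eventually_atTop.mp (hlog.and hbig)
  set n := 2 * (n0 + n1 + n2) + 1 with hn
  refine ⟨n, by omega, ?_⟩
  have h5 := hn1 n (by omega) ⟨n0 + n1 + n2, rfl⟩
  obtain ⟨h6, h7⟩ := hn2 n (by omega)
  have hn1' : (1 : ℝ) ≤ n := by
    have : 1 ≤ n := by omega
    exact_mod_cast this
  have hlog0 : 0 ≤ Real.log n := Real.log_nonneg hn1'
  have h8 : Real.logb 2 n ≤ 2 * Real.log n := by
    rw [Real.logb, div_le_iff₀ (Real.log_pos (by norm_num))]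
    have := Real.log_two_gt_d9
    nlinarith
  have h9 : (|C| + 2) * Real.log n ≤ δ / 2 * n := by
    calc (|C| + 2) * Real.log n ≤ (|C| + 2) * ((δ / (2 * (|C| + 2))) * n) :=
          mul_le_mul_of_nonneg_left h6 (by positivity)
      _ = δ / 2 * n := by
          field_simp
  have h10 : C * Real.log n ≤ |C| * Real.log n :=
    mul_le_mul_of_nonneg_right (le_abs_self C) hlog0
  refine lt_of_lt_of_le ?_ (le_abs_self _)
  rw [hδ] at h7 h9
  nlinarith

end Pool.Agent.Results.MP_ac85ec_co.FourLevels
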